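import Pool.Agent.U481.HW.Stm2
import Pool.Agent.Helper458.Dav.P_trunc_ae

/-!
Project HW, package LIMQ: from the smooth truncations to the Hilbert transform.
-/

set_option autoImplicit false

open MeasureTheory Filter Topology Set
open scoped ENNReal NNReal

namespace Pool.Agent.U97.HW.LimQ

open Pool.Dav Pool.Agent.U481.HW

theorem ker_bd (δ : ℝ) (hδ : 0 < δ) (u : ℝ) :
    |Real.pi⁻¹ * (u / (u ^ 2 + δ ^ 2))| ≤ Real.pi⁻¹ * (1 / (2 * δ)) := by
  rw [abs_mul, abs_of_pos (inv_pos.2 Real.pi_pos)]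
  apply mul_le_mul_of_nonneg_left _ (inv_pos.2 Real.pi_pos).le
  rw [abs_div, abs_of_pos (show 0 < u ^ 2 + δ ^ 2 by positivity),
    div_le_div_iff₀ (by positivity) (by positivity)]
  nlinarith [sq_nonneg (|u| - δ), sq_abs u]

theorem QQ_cont (f : ℝ → ℂ) (hf : Integrable f) (δ : ℝ) (hδ : 0 < δ) :
    Continuous (fun x => QQ f δ x) := by
  unfold QQ
  refine continuous_of_dominated (bound := fun t => Real.pi⁻¹ * (1 / (2 * δ)) * ‖f t‖) ?_ ?_ ?_ ?_
  · intro x
    have hk : Continuous (fun t : ℝ =>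
        ((Real.pi⁻¹ * ((x - t) / ((x - t) ^ 2 + δ ^ 2)) : ℝ) : ℂ)) := by
      apply Complex.continuous_ofReal.comp
      apply continuous_const.mul
      apply Continuous.div (by fun_prop) (by fun_prop)
      intro t
      positivity
    exact hk.aestronglyMeasurable.mul hf.aestronglyMeasurable
  · intro x
    refine Eventually.of_forall fun t => ?_
    rw [norm_mul, Complex.norm_real, Real.norm_eq_abs]
    exact mul_le_mul_of_nonneg_right (ker_bd δ hδ (x - t)) (norm_nonneg _)
  · exact hf.norm.const_mul _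
  · refine Eventually.of_forall fun t => ?_
    apply Continuous.mul _ continuous_const
    apply Complex.continuous_ofReal.comp
    apply continuous_const.mul
    apply Continuous.div (by fun_prop) (by fun_prop)
    intro x
    positivity

theorem main (h : S_hmwQ) : S_hmw := by
  intro p hp w K hw
  obtain ⟨C, hC, hh⟩ := h p hp w K hw
  refine ⟨C, hC, fun f hf hR => ?_⟩
  have hp0 : 0 < p := by linarith
  have hd : Tendsto (fun n : ℕ => (1 : ℝ) / ((n : ℝ) + 1)) atTop (𝓝[>] (0 : ℝ)) := by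
    refine tendsto_nhdsWithin_iff.2 ⟨tendsto_one_div_add_atTop_nhds_zero_nat, ?_⟩
    exact Eventually.of_forall (fun n => by
      show (0 : ℝ) < 1 / ((n : ℝ) + 1)
      positivity)
  have hae : ∀ᵐ x, ‖hilbert f x‖ₑ ^ p * w x ≤
      liminf (fun n : ℕ => ‖QQ f (1 / ((n : ℝ) + 1)) x‖ₑ ^ p * w x) atTop := by
    filter_upwards [trunc_ae f hf] with x hx
    by_cases hz : ‖hilbert f x‖ₑ = 0
    · rw [hz, ENNReal.zero_rpow_of_pos hp0, zero_mul]
      exact zero_le
    have hex : ∃ v, HasHilbert f x v := by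
      by_contra hne
      apply hz
      have h0 : hilbert f x = 0 := by
        unfold hilbert
        rw [dif_neg hne]
      rw [h0, enorm_zero]
    have hval : HasHilbert f x (hilbert f x) := by
      have h1 : hilbert f x = hex.choose := by
        unfold hilbert
        rw [dif_pos hex]
      rw [h1]
      exact hex.choose_spec
    have hlimQ : Tendsto (fun δ : ℝ => QQ f δ x) (𝓝[>] (0 : ℝ)) (𝓝 (hilbert f x)) := by
      have h1 := hx.add hval
      simp only [sub_add_cancel, zero_add] at h1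
      exact h1
    have h2 : Tendsto (fun n : ℕ => ‖QQ f (1 / ((n : ℝ) + 1)) x‖ₑ) atTop
        (𝓝 ‖hilbert f x‖ₑ) := (hlimQ.comp hd).enorm
    have h3 : Tendsto (fun n : ℕ => ‖QQ f (1 / ((n : ℝ) + 1)) x‖ₑ ^ p * w x) atTop
        (𝓝 (‖hilbert f x‖ₑ ^ p * w x)) := by
      refine ENNReal.Tendsto.mul_const (h2.ennrpow_const p) (Or.inl ?_)
      intro h4
      rw [ENNReal.rpow_eq_zero_iff] at h4
      rcases h4 with ⟨h5, -⟩ | ⟨-, h5⟩
      · exact hz h5
      · linarith
    exact h3.liminf_eq.ge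
  calc (∫⁻ x, ‖hilbert f x‖ₑ ^ p * w x)
      ≤ ∫⁻ x, liminf (fun n : ℕ => ‖QQ f (1 / ((n : ℝ) + 1)) x‖ₑ ^ p * w x) atTop :=
        lintegral_mono_ae hae
    _ ≤ liminf (fun n : ℕ => ∫⁻ x, ‖QQ f (1 / ((n : ℝ) + 1)) x‖ₑ ^ p * w x) atTop := by
        apply lintegral_liminf_le
        intro n
        have h1 := (QQ_cont f hf (1 / ((n : ℝ) + 1)) (by positivity)).measurable
        exact (h1.enorm.pow_const p).mul hw.meas
    _ ≤ C * ∫⁻ x, ‖f x‖ₑ ^ p * w x := by
        apply Filter.liminf_le_of_frequently_le'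
        apply Eventually.frequently
        exact Eventually.of_forall fun n => hh _ (by positivity) f hf hR

end Pool.Agent.U97.HW.LimQ
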