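import Pool.Agent.U481.HW.Stm2
import Pool.Agent.Helper458.Dav.P_QQ_level
import Pool.Agent.Helper458.Dav.P_const_eq

/-!
Project HW, package WHILQ: uniform weak type (1,1) of the conjugate Poisson integrals.
-/

set_option autoImplicit false

open MeasureTheory Filter Topology Set
open scoped ENNReal NNReal

namespace Pool.Agent.U97.HW.WhilQ

open Pool.Dav Pool.Agent.U481.HW

theorem main : S_whilQ := by
  have hU : ENNReal.ofReal U0 ≠ 0 := by
    rw [Ne, ENNReal.ofReal_eq_zero, not_le]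
    exact const_eq.1
  refine ⟨(ENNReal.ofReal U0)⁻¹, ENNReal.inv_lt_top.2 (pos_iff_ne_zero.2 hU), ?_⟩
  intro δ hδ f hf t
  rcases eq_or_ne t 0 with rfl | ht0
  · rw [zero_mul]; exact zero_le
  rcases eq_or_ne t ⊤ with rfl | htt
  · have h1 : {x | (⊤ : ℝ≥0∞) < ‖QQ f δ x‖ₑ} = ∅ := by
      ext x
      simp
    rw [h1, measure_empty, mul_zero]
    exact zero_le
  set lam : ℝ := t.toReal with hlamd
  have hlam : 0 < lam := ENNReal.toReal_pos ht0 htt
  have htl : t = ENNReal.ofReal lam := (ENNReal.ofReal_toReal htt).symm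
  set g : ℝ → ℂ := fun y => f y * (lam : ℂ)⁻¹ with hg
  have hgi : Integrable g := hf.mul_const _
  have hQg : ∀ x, QQ g δ x = QQ f δ x * (lam : ℂ)⁻¹ := by
    intro x
    unfold QQ
    rw [← integral_mul_const]
    congr 1
    ext s
    simp only [hg]
    ring
  have hnormQ : ∀ x, ‖QQ g δ x‖ = ‖QQ f δ x‖ / lam := by
    intro x
    rw [hQg, norm_mul, norm_inv, Complex.norm_real, Real.norm_eq_abs, abs_of_pos hlam,
      div_eq_mul_inv]
  have hnormg : ∫ x, ‖g x‖ = (∫ x, ‖f x‖) / lam := by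
    rw [div_eq_mul_inv, ← integral_mul_const]
    congr 1
    ext x
    simp only [hg]
    rw [norm_mul, norm_inv, Complex.norm_real, Real.norm_eq_abs, abs_of_pos hlam]
  have hset : {x | t < ‖QQ f δ x‖ₑ} = {x : ℝ | 1 < ‖QQ g δ x‖} := by
    ext x
    simp only [Set.mem_setOf_eq]
    rw [hnormQ, lt_div_iff₀ hlam, one_mul, htl, ← ofReal_norm_eq_enorm,
      ENNReal.ofReal_lt_ofReal_iff_of_nonneg hlam.le]
  have h := QQ_level g hgi δ hδ
  rw [hnormg, ← hset] at h
  have h2 : ∫⁻ y, ‖f y‖ₑ = ENNReal.ofReal (∫ y, ‖f y‖) :=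
    (ofReal_integral_norm_eq_lintegral_enorm hf).symm
  have h3 : ENNReal.ofReal U0 * (t * volume {x | t < ‖QQ f δ x‖ₑ}) ≤
      ENNReal.ofReal (∫ y, ‖f y‖) := by
    calc ENNReal.ofReal U0 * (t * volume {x | t < ‖QQ f δ x‖ₑ})
        = ENNReal.ofReal lam * (ENNReal.ofReal U0 * volume {x | t < ‖QQ f δ x‖ₑ}) := by
          rw [← htl]; ring
      _ ≤ ENNReal.ofReal lam * ENNReal.ofReal ((∫ y, ‖f y‖) / lam) := by gcongr
      _ = ENNReal.ofReal (∫ y, ‖f y‖) := by
          rw [← ENNReal.ofReal_mul hlam.le]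
          congr 1
          field_simp
  rw [h2]
  calc t * volume {x | t < ‖QQ f δ x‖ₑ}
      = (ENNReal.ofReal U0)⁻¹ * (ENNReal.ofReal U0 * (t * volume {x | t < ‖QQ f δ x‖ₑ})) := by
        rw [← mul_assoc, ENNReal.inv_mul_cancel hU ENNReal.ofReal_ne_top, one_mul]
    _ ≤ (ENNReal.ofReal U0)⁻¹ * ENNReal.ofReal (∫ y, ‖f y‖) := by gcongr

end Pool.Agent.U97.HW.WhilQ
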